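import Pool.Agent.H158_MS.Odf

/-!
# The Mansfield-Solovay property for ordinal definable sets fails after adding one Cohen real

The definitions used in the statement: `IsZF`, `Lv`, `LC`, `IsLA`, `Dfn` (`Pool.Agent.W868`),
`ext` (`Pool.Agent.Y588`), `cn`, `PP`, `LL`, `nm`, `Gf`, `Gn` (`Pool.Agent.H158_PC.Cn`), `Sd`,
`PTree` (`Pool.Agent.H158_MS.Odf`).
-/

set_option autoImplicit false

namespace Pool.Agent.Results.MP_f34575_lc.NoPerfectSubset

open Pool.Agent.W868 Pool.Agent.W868.GM Pool.Agent.Y588 Pool.Agent.H158_PC Pool.Agent.H158_MS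

/-- For every countable transitive model `V` of ZF + `V = L` and every Cohen real `g` over `V`:
the set of all `x` in `V[g]` that are Cohen over `V` and have the same degree of constructibility
as `g` contains `g`, is disjoint from `V`, is definable over `V[g]` from parameters in `V`, and has
no perfect subset in `V[g]`. There are such `V` and `g`. -/
theorem result :
    (∃ V : Set ZFSet.{0}, V.Countable ∧ IsLA ∅ V ∧ ∃ g, Gn V g) ∧
    ∀ V : Set ZFSet.{0}, V.Countable → IsLA ∅ V → ∀ g : Set ℕ, Gn V g →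
      -- `V[g]` is the least transitive model of ZF that contains `V` and `g`
      (IsZF (ext V (Gf g)) ∧ V ⊆ ext V (Gf g) ∧ nm g ∈ ext V (Gf g) ∧
        ∀ W : Set ZFSet.{0}, IsZF W → V ⊆ W → nm g ∈ W → ext V (Gf g) ⊆ W) ∧
      -- `V` is the class of the constructible sets of `V[g]`, the least transitive model of ZF
      -- with the same ordinals
      (LC (ext V (Gf g)) ∅ = V ∧
        ∀ W : Set ZFSet.{0}, IsZF W → (∀ α ∈ ext V (Gf g), α.IsOrdinal → α ∈ W) → V ⊆ W) ∧
      -- the set contains `g` and is disjoint from `V`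
      (Sd V g g ∧ ∀ x, Sd V g x → nm x ∉ V) ∧
      -- the set is definable over `V[g]` from parameters in `V`
      Dfn V (ext V (Gf g)) (fun w : Fin 1 → ZFSet.{0} => ∃ x, Sd V g x ∧ w 0 = nm x) ∧
      -- the set has no perfect subset in `V[g]`
      ¬ ∃ T ∈ ext V (Gf g), PTree T ∧
        ∀ x, nm x ∈ ext V (Gf g) → (∀ n, cn n x ∈ T) → Sd V g x := by
  refine ⟨exists_L, fun V hc hL g hg => ?_⟩
  have hG := gd_of hL
  refine ⟨⟨zfE hG hg, V_subE hG hg, nm_memE hG hg, ?_⟩, ⟨LC_ext hL hg, ?_⟩,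
    ⟨Sd_self hG hg, fun x hx => not_memV hG hx.2.1⟩, Sd_dfn hG hg hc, main hc hL hg⟩
  · rintro W hW hVW hgW y ⟨τ, hτ, rfl⟩
    exact ev_mem hW (Gf_memK hW (hVW hG.eg) hgW) (hVW hτ)
  · intro W hW hα x hx
    obtain ⟨ξ, h1, h2, h3⟩ := hL.lev x hx
    exact hW.trans _ (Lv_mem_M hW hW.empty_mem (hα ξ (V_subE hG hg h1) h2)) _ h3

end Pool.Agent.Results.MP_f34575_lc.NoPerfectSubset
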